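import Pool.Agent.Helper75.SR.Goals2
import Pool.Agent.Helper97.SR.GSum

/-!
# MP_d08e19_gt: packet SR-GInd
-/

set_option autoImplicit false

namespace Pool.Agent.Helper27.SR

open Pool.Agent.Helper75.SR Pool.Agent.Helper97.SR
open scoped ContDiff Topology
open Real

theorem qq_sub (β τ w : ℝ) (Rm Rm' : Fin 3 → Fin 3 → ℝ) (p p' : ℝ) (f f' g g' : Fin 3 → ℝ) :
    qq β τ w Rm p p' f f' g g' - qq β τ w Rm' p p' f f' g g' =
      - τ ^ 2 * (∑ a, ∑ b, (Rm a b - Rm' a b) * f a * f b) := by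
  simp only [qq, Fin.sum_univ_three]
  ring

theorem gInd : GInd := by
  intro β τ w k t Rm Rm' hs hs' htr
  rw [← sub_eq_zero, ← Finset.sum_sub_distrib]
  simp only [qq_sub]
  rw [← Finset.mul_sum]
  refine mul_eq_zero_of_right _ ?_
  rw [Fin.sum_univ_four]
  simp only [Fin.sum_univ_three, fldF_00, fldF_01, fldF_02, fldF_10, fldF_11, fldF_12,
    fldF_20, fldF_21, fldF_22, fldF_30, fldF_31, fldF_32]
  rw [Fin.sum_univ_three, Fin.sum_univ_three] at htr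
  have hab : cos (2 * w * t) ^ 2 + sin (2 * w * t) ^ 2 = 1 := cos_sq_add_sin_sq _
  generalize cos (2 * w * t) = a at hab ⊢
  generalize sin (2 * w * t) = b at hab ⊢
  generalize zr1 k ((1 + β) * w) t = x
  generalize zi1 k ((1 + β) * w) t = y
  have h12 := hs 1 2
  have h12' := hs' 1 2
  have e : ∀ c d : ℝ, c * c + d * d = x * x + y * y →
      (Rm 0 0 - Rm' 0 0) * (x * x + y * y) + (Rm 1 1 - Rm' 1 1 + (Rm 2 2 - Rm' 2 2))
        * (c * c + d * d) = 0 := by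
    intro c d hcd
    rw [hcd]
    linear_combination (x * x + y * y) * htr
  have e2 := e (a * x + b * y) (a * y - b * x) (by linear_combination (x * x + y * y) * hab)
  rw [h12, h12']
  linear_combination e2

theorem contDiff_ZR (k v : ℝ) : ContDiff ℝ ∞ (ZR k v) := by
  unfold ZR Hh
  fun_prop

theorem contDiff_ZI (k v : ℝ) : ContDiff ℝ ∞ (ZI k v) := by
  unfold ZI Hh
  fun_prop

theorem contDiff_zr1 (k v : ℝ) : ContDiff ℝ ∞ (zr1 k v) := by
  unfold zr1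
  fun_prop

theorem contDiff_zi1 (k v : ℝ) : ContDiff ℝ ∞ (zi1 k v) := by
  unfold zi1
  fun_prop

theorem gFldEnds : GFldEnds := by
  intro β τ w L hL i
  set k : ℝ := 2 * π / L with hk
  have hkL : k * L = 2 * π := by
    rw [hk]; field_simp
  set v : ℝ := (1 + β) * w with hv
  have c1 : cos (k * L) = 1 := by rw [hkL, cos_two_pi]
  have c2 : sin (k * L) = 0 := by rw [hkL, sin_two_pi]
  have ZR0 : ZR k v 0 = 0 := by simp [ZR, Hh]
  have ZRL : ZR k v L = 0 := by simp [ZR, Hh, c1]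
  have ZI0 : ZI k v 0 = 0 := by simp [ZI, Hh]
  have ZIL : ZI k v L = 0 := by simp [ZI, Hh, c1]
  have zr0 : zr1 k v 0 = 0 := by simp [zr1]
  have zrL : zr1 k v L = 0 := by simp [zr1, c1, c2]
  have zi0 : zi1 k v 0 = 0 := by simp [zi1]
  have ziL : zi1 k v L = 0 := by simp [zi1, c1, c2]
  have hP0 : fldP β k w 0 = fun s => 2 * v * ZR k v s := by
    funext s; simp [fldP, hv]
  have hP1 : fldP β k w 1 = fun s => 2 * v * ZI k v s := by
    funext s; simp [fldP, hv]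
  have hP2 : fldP β k w 2 = fun _ => 0 := by
    funext s; simp [fldP]
  have hP3 : fldP β k w 3 = fun _ => 0 := by
    funext s; simp [fldP]
  have K1 := contDiff_ZR k v
  have K2 := contDiff_ZI k v
  have K3 := contDiff_zr1 k v
  have K4 := contDiff_zi1 k v
  refine ⟨?_, ?_, ?_, ?_, ?_, ?_⟩
  · fin_cases i
    · show ContDiff ℝ ∞ (fldP β k w 0)
      rw [hP0]; fun_prop
    · show ContDiff ℝ ∞ (fldP β k w 1)
      rw [hP1]; fun_prop
    · show ContDiff ℝ ∞ (fldP β k w 2)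
      rw [hP2]; fun_prop
    · show ContDiff ℝ ∞ (fldP β k w 3)
      rw [hP3]; fun_prop
  · intro a
    fin_cases i <;> fin_cases a
    · show ContDiff ℝ ∞ (fldF β k w 0 0)
      rw [fldF_00]; fun_prop
    · show ContDiff ℝ ∞ (fldF β k w 0 1)
      rw [fldF_01]; fun_prop
    · show ContDiff ℝ ∞ (fldF β k w 0 2)
      rw [fldF_02]; fun_prop
    · show ContDiff ℝ ∞ (fldF β k w 1 0)
      rw [fldF_10]; fun_prop
    · show ContDiff ℝ ∞ (fldF β k w 1 1)
      rw [fldF_11]; fun_prop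
    · show ContDiff ℝ ∞ (fldF β k w 1 2)
      rw [fldF_12]; fun_prop
    · show ContDiff ℝ ∞ (fldF β k w 2 0)
      rw [fldF_20]; fun_prop
    · show ContDiff ℝ ∞ (fldF β k w 2 1)
      rw [fldF_21, ← hv]; fun_prop
    · show ContDiff ℝ ∞ (fldF β k w 2 2)
      rw [fldF_22, ← hv]; fun_prop
    · show ContDiff ℝ ∞ (fldF β k w 3 0)
      rw [fldF_30]; fun_prop
    · show ContDiff ℝ ∞ (fldF β k w 3 1)
      rw [fldF_31, ← hv]; fun_prop
    · show ContDiff ℝ ∞ (fldF β k w 3 2)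
      rw [fldF_32, ← hv]; fun_prop
  · intro a
    fin_cases i <;> fin_cases a
    · show ContDiff ℝ ∞ (fldG β k τ w 0 0)
      rw [fldG_00, ← hv]; fun_prop
    · show ContDiff ℝ ∞ (fldG β k τ w 0 1)
      rw [fldG_01]; fun_prop
    · show ContDiff ℝ ∞ (fldG β k τ w 0 2)
      rw [fldG_02]; fun_prop
    · show ContDiff ℝ ∞ (fldG β k τ w 1 0)
      rw [fldG_10, ← hv]; fun_prop
    · show ContDiff ℝ ∞ (fldG β k τ w 1 1)
      rw [fldG_11]; fun_prop
    · show ContDiff ℝ ∞ (fldG β k τ w 1 2)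
      rw [fldG_12]; fun_prop
    · show ContDiff ℝ ∞ (fldG β k τ w 2 0)
      rw [fldG_20]; fun_prop
    · show ContDiff ℝ ∞ (fldG β k τ w 2 1)
      rw [fldG_21, ← hv]; fun_prop
    · show ContDiff ℝ ∞ (fldG β k τ w 2 2)
      rw [fldG_22, ← hv]; fun_prop
    · show ContDiff ℝ ∞ (fldG β k τ w 3 0)
      rw [fldG_30]; fun_prop
    · show ContDiff ℝ ∞ (fldG β k τ w 3 1)
      rw [fldG_31, ← hv]; fun_prop
    · show ContDiff ℝ ∞ (fldG β k τ w 3 2)
      rw [fldG_32, ← hv]; fun_prop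
  · fin_cases i
    · show fldP β k w 0 0 = 0 ∧ fldP β k w 0 L = 0
      rw [hP0]; simp [ZR0, ZRL]
    · show fldP β k w 1 0 = 0 ∧ fldP β k w 1 L = 0
      rw [hP1]; simp [ZI0, ZIL]
    · show fldP β k w 2 0 = 0 ∧ fldP β k w 2 L = 0
      rw [hP2]; simp
    · show fldP β k w 3 0 = 0 ∧ fldP β k w 3 L = 0
      rw [hP3]; simp
  · intro a
    fin_cases i <;> fin_cases a
    · show fldF β k w 0 0 0 = 0 ∧ fldF β k w 0 0 L = 0
      rw [fldF_00]; exact ⟨zr0, zrL⟩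
    · show fldF β k w 0 1 0 = 0 ∧ fldF β k w 0 1 L = 0
      rw [fldF_01]; simp
    · show fldF β k w 0 2 0 = 0 ∧ fldF β k w 0 2 L = 0
      rw [fldF_02]; simp
    · show fldF β k w 1 0 0 = 0 ∧ fldF β k w 1 0 L = 0
      rw [fldF_10]; exact ⟨zi0, ziL⟩
    · show fldF β k w 1 1 0 = 0 ∧ fldF β k w 1 1 L = 0
      rw [fldF_11]; simp
    · show fldF β k w 1 2 0 = 0 ∧ fldF β k w 1 2 L = 0
      rw [fldF_12]; simp
    · show fldF β k w 2 0 0 = 0 ∧ fldF β k w 2 0 L = 0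
      rw [fldF_20]; simp
    · show fldF β k w 2 1 0 = 0 ∧ fldF β k w 2 1 L = 0
      rw [fldF_21, ← hv]; simp only [zr0, zrL, zi0, ziL]; simp
    · show fldF β k w 2 2 0 = 0 ∧ fldF β k w 2 2 L = 0
      rw [fldF_22, ← hv]; simp only [zr0, zrL, zi0, ziL]; simp
    · show fldF β k w 3 0 0 = 0 ∧ fldF β k w 3 0 L = 0
      rw [fldF_30]; simp
    · show fldF β k w 3 1 0 = 0 ∧ fldF β k w 3 1 L = 0
      rw [fldF_31, ← hv]; simp only [zr0, zrL, zi0, ziL]; simp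
    · show fldF β k w 3 2 0 = 0 ∧ fldF β k w 3 2 L = 0
      rw [fldF_32, ← hv]; simp only [zr0, zrL, zi0, ziL]; simp
  · intro a
    fin_cases i <;> fin_cases a
    · show fldG β k τ w 0 0 0 = 0 ∧ fldG β k τ w 0 0 L = 0
      rw [fldG_00, ← hv]; simp only [ZR0, ZRL, ZI0, ZIL]; simp
    · show fldG β k τ w 0 1 0 = 0 ∧ fldG β k τ w 0 1 L = 0
      rw [fldG_01]; simp
    · show fldG β k τ w 0 2 0 = 0 ∧ fldG β k τ w 0 2 L = 0
      rw [fldG_02]; simp
    · show fldG β k τ w 1 0 0 = 0 ∧ fldG β k τ w 1 0 L = 0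
      rw [fldG_10, ← hv]; simp only [ZR0, ZRL, ZI0, ZIL]; simp
    · show fldG β k τ w 1 1 0 = 0 ∧ fldG β k τ w 1 1 L = 0
      rw [fldG_11]; simp
    · show fldG β k τ w 1 2 0 = 0 ∧ fldG β k τ w 1 2 L = 0
      rw [fldG_12]; simp
    · show fldG β k τ w 2 0 0 = 0 ∧ fldG β k τ w 2 0 L = 0
      rw [fldG_20]; simp
    · show fldG β k τ w 2 1 0 = 0 ∧ fldG β k τ w 2 1 L = 0
      rw [fldG_21, ← hv]; simp only [ZR0, ZRL, ZI0, ZIL]; simp
    · show fldG β k τ w 2 2 0 = 0 ∧ fldG β k τ w 2 2 L = 0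
      rw [fldG_22, ← hv]; simp only [ZR0, ZRL, ZI0, ZIL]; simp
    · show fldG β k τ w 3 0 0 = 0 ∧ fldG β k τ w 3 0 L = 0
      rw [fldG_30]; simp
    · show fldG β k τ w 3 1 0 = 0 ∧ fldG β k τ w 3 1 L = 0
      rw [fldG_31, ← hv]; simp only [ZR0, ZRL, ZI0, ZIL]; simp
    · show fldG β k τ w 3 2 0 = 0 ∧ fldG β k τ w 3 2 L = 0
      rw [fldG_32, ← hv]; simp only [ZR0, ZRL, ZI0, ZIL]; simp

end Pool.Agent.Helper27.SR
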